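import Pool.Agent.Helper81.LT.Inc

set_option autoImplicit false

/-! Packet PRG (MP_c20641_lc): graphs of primitive recursive functions. -/

namespace Pool.Agent.Helper65.LT

open Pool.Agent.Helper81.LT FirstOrder Language

/-- terms (a name for dot notation) -/
def TT {α : Type} (f : (α → ℕ) → ℕ) : Prop := TmN f

theorem TT.var {α : Type} (a : α) : TT (fun v : α → ℕ => v a) := ⟨Term.var a, fun _ => rfl⟩

theorem TT.zero {α : Type} : TT (fun _ : α → ℕ => 0) := ⟨0, fun _ => rfl⟩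

theorem TT.one {α : Type} : TT (fun _ : α → ℕ => 1) := ⟨1, fun _ => rfl⟩

theorem TT.add {α : Type} {f g : (α → ℕ) → ℕ} (hf : TT f) (hg : TT g) :
    TT (fun v => f v + g v) := by
  obtain ⟨s, hs⟩ := hf
  obtain ⟨t, ht⟩ := hg
  refine ⟨s + t, fun v => ?_⟩
  beta_reduce
  rw [← hs, ← ht]
  rfl

theorem TT.mul {α : Type} {f g : (α → ℕ) → ℕ} (hf : TT f) (hg : TT g) :
    TT (fun v => f v * g v) := by
  obtain ⟨s, hs⟩ := hf
  obtain ⟨t, ht⟩ := hg
  refine ⟨s * t, fun v => ?_⟩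
  beta_reduce
  rw [← hs, ← ht]
  rfl

theorem TT.lift {α : Type} {f : (α → ℕ) → ℕ} (hf : TT f) :
    TT (fun u : α ⊕ Unit → ℕ => f (fun a => u (Sum.inl a))) := by
  obtain ⟨s, hs⟩ := hf
  refine ⟨s.relabel Sum.inl, fun v => ?_⟩
  beta_reduce
  rw [← hs, Term.realize_relabel]
  rfl

theorem TT.last {α : Type} : TT (fun u : α ⊕ Unit → ℕ => u (Sum.inr ())) := TT.var _

section

variable (h : SGCL) {α : Type}

include h

theorem sEq {f g : (α → ℕ) → ℕ} (hf : TT f) (hg : TT g) : Sg (fun v => f v = g v) :=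
  h.1 α f g hf hg

theorem sLt {f g : (α → ℕ) → ℕ} (hf : TT f) (hg : TT g) : Sg (fun v => f v < g v) :=
  h.2.1 α f g hf hg

theorem sAnd {P Q : (α → ℕ) → Prop} (hP : Sg P) (hQ : Sg Q) : Sg (fun v => P v ∧ Q v) :=
  h.2.2.1 α P Q hP hQ

theorem sOr {P Q : (α → ℕ) → Prop} (hP : Sg P) (hQ : Sg Q) : Sg (fun v => P v ∨ Q v) :=
  h.2.2.2.1 α P Q hP hQ

theorem sEx (P : (α → ℕ) → ℕ → Prop)
    (hP : Sg (fun u : α ⊕ Unit → ℕ => P (fun a => u (Sum.inl a)) (u (Sum.inr ())))) :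
    Sg (fun v => ∃ x, P v x) :=
  h.2.2.2.2.1 α P hP

theorem sAll (f : (α → ℕ) → ℕ) (P : (α → ℕ) → ℕ → Prop) (hf : TT f)
    (hP : Sg (fun u : α ⊕ Unit → ℕ => P (fun a => u (Sum.inl a)) (u (Sum.inr ())))) :
    Sg (fun v => ∀ x, x < f v → P v x) :=
  h.2.2.2.2.2.1 α f P hf hP

omit h in
theorem sCongr {P Q : (α → ℕ) → Prop} (hP : Sg P) (hPQ : ∀ v, P v ↔ Q v) : Sg Q := by
  have : P = Q := funext fun v => propext (hPQ v)
  rwa [← this]

theorem sPair {a b c : (α → ℕ) → ℕ} (ha : TT a) (hb : TT b) (hc : TT c) :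
    Sg (fun v => Nat.pair (a v) (b v) = c v) := by
  refine sCongr (sOr h (sAnd h (sLt h ha hb) (sEq h ((hb.mul hb).add ha) hc))
    (sAnd h (sLt h hb (ha.add TT.one)) (sEq h (((ha.mul ha).add ha).add hb) hc))) fun v => ?_
  unfold Nat.pair
  by_cases hab : a v < b v
  · rw [if_pos hab]
    constructor
    · rintro (⟨_, h1⟩ | ⟨h2, _⟩)
      · exact h1
      · omega
    · intro h1
      exact Or.inl ⟨hab, h1⟩
  · rw [if_neg hab]
    constructor
    · rintro (⟨h2, _⟩ | ⟨_, h1⟩)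
      · exact absurd h2 hab
      · exact h1
    · intro h1
      exact Or.inr ⟨by omega, h1⟩

theorem sBeta {s i u : (α → ℕ) → ℕ} (hs : TT s) (hi : TT i) (hu : TT u) :
    Sg (fun v => Nat.beta (s v) (i v) = u v) := by
  refine sCongr (sEx h (fun v p => ∃ q, Nat.pair p q = s v ∧ u v < (i v + 1) * q + 1 ∧
    ∃ r, p = r * ((i v + 1) * q + 1) + u v) ?_) ?_
  · refine sEx h (fun (w : α ⊕ Unit → ℕ) q => Nat.pair (w (Sum.inr ())) q =
      s (fun a => w (Sum.inl a)) ∧ u (fun a => w (Sum.inl a)) <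
      (i (fun a => w (Sum.inl a)) + 1) * q + 1 ∧
      ∃ r, w (Sum.inr ()) = r * ((i (fun a => w (Sum.inl a)) + 1) * q + 1) +
        u (fun a => w (Sum.inl a))) ?_
    refine sAnd h (sPair h (TT.last.lift) TT.last hs.lift.lift) (sAnd h
      (sLt h hu.lift.lift (((hi.lift.lift.add TT.one).mul TT.last).add TT.one)) ?_)
    refine sEx h (fun (w : (α ⊕ Unit) ⊕ Unit → ℕ) r => w (Sum.inl (Sum.inr ())) =
      r * ((i (fun a => w (Sum.inl (Sum.inl a))) + 1) * w (Sum.inr ()) + 1) +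
        u (fun a => w (Sum.inl (Sum.inl a)))) ?_
    exact sEq h TT.last.lift.lift ((TT.last.mul (((hi.lift.lift.lift.add TT.one).mul
      TT.last.lift).add TT.one)).add hu.lift.lift.lift)
  · intro v
    constructor
    · rintro ⟨p, q, h1, h2, r, h3⟩
      unfold Nat.beta
      rw [← h1, Nat.unpair_pair]
      simp only
      rw [h3, Nat.add_comm, Nat.add_mul_mod_self_right, Nat.mod_eq_of_lt h2]
    · intro h1
      refine ⟨(s v).unpair.1, (s v).unpair.2, Nat.pair_unpair _, ?_, (s v).unpair.1 /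
        ((i v + 1) * (s v).unpair.2 + 1), ?_⟩
      · rw [← h1]
        exact Nat.mod_lt _ (by omega)
      · rw [← h1]
        unfold Nat.beta
        rw [Nat.mul_comm]
        exact (Nat.div_add_mod _ _).symm

end

/-- the graph of `f` in every context -/
def GG (f : ℕ → ℕ) : Prop :=
  ∀ (α : Type) (a b : (α → ℕ) → ℕ), TT a → TT b → Sg (fun v => f (a v) = b v)

theorem prec_iff (f g : ℕ → ℕ) (n y : ℕ) :
    (∃ z m, Nat.pair z m = n ∧ ∃ s, (∃ u, Nat.beta s 0 = u ∧ f z = u) ∧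
      (∀ i, i < m → ∃ u, Nat.beta s i = u ∧ ∃ w, Nat.beta s (i + 1) = w ∧
        ∃ t1, Nat.pair i u = t1 ∧ ∃ t2, Nat.pair z t1 = t2 ∧ g t2 = w) ∧
      Nat.beta s m = y) ↔
    Nat.unpaired (fun z n => Nat.rec (f z) (fun y IH => g (Nat.pair z (Nat.pair y IH))) n) n =
      y := by
  unfold Nat.unpaired
  constructor
  · rintro ⟨z, m, hzm, s, ⟨u, hu1, hu2⟩, hstep, hy⟩
    rw [← hzm, Nat.unpair_pair]
    simp only
    have key : ∀ i ≤ m, Nat.beta s i =
        (Nat.rec (f z) (fun y IH => g (Nat.pair z (Nat.pair y IH))) i : ℕ) := by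
      intro i
      induction i with
      | zero => intro _; rw [hu1, ← hu2]; rfl
      | succ i ih =>
        intro hi
        obtain ⟨u', h1, w, h2, t1, h3, t2, h4, h5⟩ := hstep i (by omega)
        rw [h2, ← h5, ← h4, ← h3, ← h1, ih (by omega)]
    rw [← hy, key m le_rfl]
  · intro hy
    set z := n.unpair.1 with hz
    set m := n.unpair.2 with hm
    let F : ℕ → ℕ := fun i => (Nat.rec (f z) (fun y IH => g (Nat.pair z (Nat.pair y IH))) i : ℕ)
    let l : List ℕ := (List.range (m + 1)).map F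
    have hl : ∀ i ≤ m, Nat.beta (Nat.unbeta l) i = F i := by
      intro i hi
      have hlen : l.length = m + 1 := by simp [l]
      have h1 := Nat.beta_unbeta_coe l ⟨i, by rw [hlen]; omega⟩
      rw [h1]
      simp [l]
    refine ⟨z, m, Nat.pair_unpair n, Nat.unbeta l, ⟨_, rfl, ?_⟩, ?_, ?_⟩
    · rw [hl 0 (by omega)]; rfl
    · intro i hi
      refine ⟨_, rfl, _, rfl, _, rfl, _, rfl, ?_⟩
      rw [hl i (by omega), hl (i + 1) (by omega)]
    · rw [hl m le_rfl]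
      exact hy

theorem gg (h : SGCL) {f : ℕ → ℕ} (hf : Nat.Primrec f) : GG f := by
  induction hf with
  | zero => exact fun α a b _ hb => sEq h TT.zero hb
  | succ => exact fun α a b ha hb => sEq h (ha.add TT.one) hb
  | left =>
    intro α a b ha hb
    refine sCongr (sEx h (fun v z => Nat.pair (b v) z = a v)
      (sPair h hb.lift TT.last ha.lift)) fun v => ?_
    beta_reduce
    constructor
    · rintro ⟨z, hz⟩
      rw [← hz, Nat.unpair_pair]
    · intro h1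
      exact ⟨(a v).unpair.2, by rw [← h1]; exact Nat.pair_unpair _⟩
  | right =>
    intro α a b ha hb
    refine sCongr (sEx h (fun v z => Nat.pair z (b v) = a v)
      (sPair h TT.last hb.lift ha.lift)) fun v => ?_
    beta_reduce
    constructor
    · rintro ⟨z, hz⟩
      rw [← hz, Nat.unpair_pair]
    · intro h1
      exact ⟨(a v).unpair.1, by rw [← h1]; exact Nat.pair_unpair _⟩
  | @pair f g _ _ ihf ihg =>
    intro α a b ha hb
    refine sCongr (sEx h (fun v x => f (a v) = x ∧ ∃ y, g (a v) = y ∧ Nat.pair x y = b v)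
      (sAnd h (ihf _ _ _ ha.lift TT.last) (sEx h (fun (w : α ⊕ Unit → ℕ) y =>
        g (a fun x => w (Sum.inl x)) = y ∧ Nat.pair (w (Sum.inr ())) y =
          b fun x => w (Sum.inl x))
        (sAnd h (ihg _ _ _ ha.lift.lift TT.last)
          (sPair h TT.last.lift TT.last hb.lift.lift))))) fun v => ?_
    beta_reduce
    constructor
    · rintro ⟨x, hx, y, hy, hxy⟩
      rw [hx, hy, hxy]
    · intro h1
      exact ⟨_, rfl, _, rfl, h1⟩
  | @comp f g _ _ ihf ihg =>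
    intro α a b ha hb
    refine sCongr (sEx h (fun v x => g (a v) = x ∧ f x = b v)
      (sAnd h (ihg _ _ _ ha.lift TT.last) (ihf _ _ _ TT.last hb.lift))) fun v => ?_
    beta_reduce
    constructor
    · rintro ⟨x, hx, hy⟩
      rw [hx, hy]
    · intro h1
      exact ⟨_, rfl, h1⟩
  | @prec f g _ _ ihf ihg =>
    intro α a b ha hb
    refine sCongr ?_ fun v => prec_iff f g (a v) (b v)
    refine sEx h (fun v z => ∃ m, Nat.pair z m = a v ∧ ∃ s, (∃ u, Nat.beta s 0 = u ∧ f z = u) ∧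
      (∀ i, i < m → ∃ u, Nat.beta s i = u ∧ ∃ w, Nat.beta s (i + 1) = w ∧
        ∃ t1, Nat.pair i u = t1 ∧ ∃ t2, Nat.pair z t1 = t2 ∧ g t2 = w) ∧
      Nat.beta s m = b v) ?_
    refine sEx h (fun (v : α ⊕ Unit → ℕ) m => Nat.pair (v (Sum.inr ())) m =
      a (fun x => v (Sum.inl x)) ∧ ∃ s, (∃ u, Nat.beta s 0 = u ∧ f (v (Sum.inr ())) = u) ∧
      (∀ i, i < m → ∃ u, Nat.beta s i = u ∧ ∃ w, Nat.beta s (i + 1) = w ∧
        ∃ t1, Nat.pair i u = t1 ∧ ∃ t2, Nat.pair (v (Sum.inr ())) t1 = t2 ∧ g t2 = w) ∧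
      Nat.beta s m = b (fun x => v (Sum.inl x))) ?_
    refine sAnd h (sPair h TT.last.lift TT.last ha.lift.lift) ?_
    refine sEx h (fun (v : (α ⊕ Unit) ⊕ Unit → ℕ) s => (∃ u, Nat.beta s 0 = u ∧
      f (v (Sum.inl (Sum.inr ()))) = u) ∧
      (∀ i, i < v (Sum.inr ()) → ∃ u, Nat.beta s i = u ∧ ∃ w, Nat.beta s (i + 1) = w ∧
        ∃ t1, Nat.pair i u = t1 ∧ ∃ t2, Nat.pair (v (Sum.inl (Sum.inr ()))) t1 = t2 ∧
          g t2 = w) ∧
      Nat.beta s (v (Sum.inr ())) = b (fun x => v (Sum.inl (Sum.inl x)))) ?_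
    refine sAnd h ?_ (sAnd h ?_ (sBeta h TT.last TT.last.lift hb.lift.lift.lift))
    · refine sEx h (fun (v : ((α ⊕ Unit) ⊕ Unit) ⊕ Unit → ℕ) u => Nat.beta (v (Sum.inr ())) 0 =
        u ∧ f (v (Sum.inl (Sum.inl (Sum.inr ())))) = u) ?_
      exact sAnd h (sBeta h TT.last.lift TT.zero TT.last)
        (ihf _ _ _ TT.last.lift.lift.lift TT.last)
    · refine sAll h (fun v : ((α ⊕ Unit) ⊕ Unit) ⊕ Unit → ℕ => v (Sum.inl (Sum.inr ())))
        (fun v i => ∃ u, Nat.beta (v (Sum.inr ())) i = u ∧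
          ∃ w, Nat.beta (v (Sum.inr ())) (i + 1) = w ∧
          ∃ t1, Nat.pair i u = t1 ∧ ∃ t2, Nat.pair (v (Sum.inl (Sum.inl (Sum.inr ())))) t1 = t2 ∧
          g t2 = w) TT.last.lift ?_
      refine sEx h (fun (v : (((α ⊕ Unit) ⊕ Unit) ⊕ Unit) ⊕ Unit → ℕ) u =>
        Nat.beta (v (Sum.inl (Sum.inr ()))) (v (Sum.inr ())) = u ∧
          ∃ w, Nat.beta (v (Sum.inl (Sum.inr ()))) (v (Sum.inr ()) + 1) = w ∧
          ∃ t1, Nat.pair (v (Sum.inr ())) u = t1 ∧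
          ∃ t2, Nat.pair (v (Sum.inl (Sum.inl (Sum.inl (Sum.inr ()))))) t1 = t2 ∧
          g t2 = w) ?_
      refine sAnd h (sBeta h TT.last.lift.lift TT.last.lift TT.last) ?_
      refine sEx h (fun (v : ((((α ⊕ Unit) ⊕ Unit) ⊕ Unit) ⊕ Unit) ⊕ Unit → ℕ) w =>
        Nat.beta (v (Sum.inl (Sum.inl (Sum.inr ())))) (v (Sum.inl (Sum.inr ())) + 1) = w ∧
          ∃ t1, Nat.pair (v (Sum.inl (Sum.inr ()))) (v (Sum.inr ())) = t1 ∧
          ∃ t2, Nat.pair (v (Sum.inl (Sum.inl (Sum.inl (Sum.inl (Sum.inr ())))))) t1 = t2 ∧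
          g t2 = w) ?_
      refine sAnd h (sBeta h TT.last.lift.lift.lift (TT.last.lift.lift.add TT.one)
        TT.last) ?_
      refine sEx h (fun (v : (((((α ⊕ Unit) ⊕ Unit) ⊕ Unit) ⊕ Unit) ⊕ Unit) ⊕ Unit → ℕ) t1 =>
        Nat.pair (v (Sum.inl (Sum.inl (Sum.inr ())))) (v (Sum.inl (Sum.inr ()))) = t1 ∧
          ∃ t2, Nat.pair (v (Sum.inl (Sum.inl (Sum.inl (Sum.inl (Sum.inl (Sum.inr ())))))))
            t1 = t2 ∧ g t2 = v (Sum.inr ())) ?_
      refine sAnd h (sPair h TT.last.lift.lift.lift TT.last.lift.lift TT.last) ?_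
      refine sEx h (fun (v : ((((((α ⊕ Unit) ⊕ Unit) ⊕ Unit) ⊕ Unit) ⊕ Unit) ⊕ Unit) ⊕ Unit →
          ℕ) t2 =>
        Nat.pair (v (Sum.inl (Sum.inl (Sum.inl (Sum.inl (Sum.inl (Sum.inl (Sum.inr ()))))))))
            (v (Sum.inr ())) = t2 ∧ g t2 = v (Sum.inl (Sum.inr ()))) ?_
      exact sAnd h (sPair h TT.last.lift.lift.lift.lift.lift.lift.lift TT.last.lift TT.last)
        (ihg _ _ _ TT.last TT.last.lift.lift)

theorem prg (h : SGCL) : PRG := fun _ hf =>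
  gg h hf (Fin 2) (fun v => v 0) (fun v => v 1) (TT.var 0) (TT.var 1)

end Pool.Agent.Helper65.LT
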